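import Pool.Agent.Helper30.NX.LinForms
import Pool.Agent.Helper5.NX.PhiBasics

/-!
# Project NX, module NX-27: the linear sweep
-/

set_option autoImplicit false

open Finset
open scoped BigOperators ComplexConjugate

namespace Pool.Agent.Helper57.NX

noncomputable section

namespace SW27

/-- Taylor's formula of order two. -/
theorem taylor2 (f f1 f2 : ℝ → ℝ) (a b B : ℝ) (hab : a ≤ b)
    (h1 : ∀ y, a ≤ y → y ≤ b → HasDerivAt f (f1 y) y)
    (h2 : ∀ y, a ≤ y → y ≤ b → HasDerivAt f1 (f2 y) y)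
    (hB : ∀ y, a ≤ y → y ≤ b → |f2 y| ≤ B) : |f b - f a - (b - a) * f1 a| ≤ B * (b - a) ^ 2 := by
  have hB0 : 0 ≤ B := (abs_nonneg _).trans (hB a le_rfl hab)
  have s1 : ∀ y, a ≤ y → y ≤ b → |f1 y - f1 a| ≤ B * (b - a) := by
    intro y hy hy'
    have h := (convex_Icc a b).norm_image_sub_le_of_norm_hasDerivWithin_le (f := f1) (f' := f2)
      (C := B) (x := a) (y := y) (fun z hz => (h2 z hz.1 hz.2).hasDerivWithinAt)
      (fun z hz => by rw [Real.norm_eq_abs]; exact hB z hz.1 hz.2) ⟨le_rfl, hab⟩ ⟨hy, hy'⟩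
    rw [Real.norm_eq_abs, Real.norm_eq_abs] at h
    refine h.trans ?_
    rw [abs_of_nonneg (by linarith)]
    exact mul_le_mul_of_nonneg_left (by linarith) hB0
  have h := (convex_Icc a b).norm_image_sub_le_of_norm_hasDerivWithin_le
    (f := fun y => f y - y * f1 a) (f' := fun y => f1 y - 1 * f1 a)
    (C := B * (b - a)) (x := a) (y := b)
    (fun z hz => ((h1 z hz.1 hz.2).sub ((hasDerivAt_id z).mul_const (f1 a))).hasDerivWithinAt)
    (fun z hz => by rw [Real.norm_eq_abs, one_mul]; exact s1 z hz.1 hz.2) ⟨le_rfl, hab⟩ ⟨hab, le_rfl⟩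
  rw [Real.norm_eq_abs, Real.norm_eq_abs, abs_of_nonneg (by linarith : (0 : ℝ) ≤ b - a)] at h
  have e1 : f b - b * f1 a - (f a - a * f1 a) = f b - f a - (b - a) * f1 a := by ring
  rw [e1] at h
  refine h.trans (le_of_eq ?_)
  ring

/-- lower bound for the first derivative of the model -/
theorem mdl_lower (γ : ℝ) (hγ : γ ≠ 0) : ∃ c : ℝ, 0 < c ∧ ∀ (m : ℕ) (S : Sys m), 0 < S.D →
    0 ≤ S.ρ → S.ρ ≤ S.D → ∀ y : ℝ, S.D ≤ y → y ≤ 3 * S.D → c / S.D ≤ |mdl S γ 1 y| := by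
  refine ⟨|γ| * (4 : ℝ) ^ (-|γ - 1|), by positivity, ?_⟩
  intro m S hD hρ hρ' y hy hy'
  have ht1 : 1 ≤ (y + S.ρ) / S.D := by
    rw [le_div_iff₀ hD]; linarith
  have ht2 : (y + S.ρ) / S.D ≤ 4 := by
    rw [div_le_iff₀ hD]; linarith
  have ht0 : 0 < (y + S.ρ) / S.D := by linarith
  have hff : ff γ 1 = γ := by
    unfold ff
    simp
  have hpow : (4 : ℝ) ^ (-|γ - 1|) ≤ ((y + S.ρ) / S.D) ^ (γ - 1) := by
    rcases le_total 0 (γ - 1) with h | h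
    · have h1 : (4 : ℝ) ^ (-|γ - 1|) ≤ 1 :=
        Real.rpow_le_one_of_one_le_of_nonpos (by norm_num) (by simp)
      exact h1.trans (Real.one_le_rpow ht1 h)
    · rw [abs_of_nonpos h, neg_neg]
      exact Real.rpow_le_rpow_of_nonpos ht0 ht2 h
  unfold mdl
  rw [hff, pow_one, Nat.cast_one, abs_div, abs_mul, abs_of_pos hD,
    abs_of_nonneg (Real.rpow_nonneg ht0.le _)]
  gcongr

/-- averages over `Ico` -/
theorem expect_Ico (u T : ℕ) (G : ℕ → ℂ) :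
    𝔼 k ∈ Ico u (u + T), G k = 𝔼 k ∈ range T, G (u + k) := by
  rw [Finset.expect_eq_sum_div_card, Finset.expect_eq_sum_div_card, Finset.sum_Ico_eq_sum_range]
  simp

/-- the values of one difference -/
theorem one_diff (γ : ℝ) (hγ : γ ≠ 0) (n : ℕ) : ∃ q : ℕ, ∀ (m : ℕ) (S : Sys m) (c : Fin m → ℝ)
    (δ Y lam w : ℝ) (M : ℕ) (p : Phi m), 1 ≤ S.D → 0 ≤ S.ρ → S.ρ ≤ 1 → 0 < δ → δ ≤ 1 / 2 →
    0 < lam → 0 ≤ w → w ≤ δ ^ (2 * n + q) → Y ≤ 3 * S.D →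
    Tp S c δ n 2 Y γ lam w p → Bd M (n + n) p → ∀ (k K : ℕ), S.D ≤ k → (k : ℝ) + K ≤ Y →
      1 ≤ K →
      δ ^ (n + q) * (lam / S.D) ≤ |jet S c 1 p k| ∧
      |jet S c 1 p k| ≤ 2 ^ q * δ⁻¹ ^ n * (lam / S.D) ∧
      ∀ j < K, |((ev (S.a c) p (k + j) - (⌊jet S c 0 p k⌋ + ⌊jet S c 1 p k * j⌋) : ℤ) : ℝ)| ≤
        2 ^ q * δ⁻¹ ^ n * (1 + lam * (K / S.D) ^ 2) := by
  obtain ⟨C1, hC1, hb1⟩ := mdl_bound γ 1
  obtain ⟨C2, hC2, hb2⟩ := mdl_bound γ 2
  obtain ⟨c1, hc1, hl1⟩ := mdl_lower γ hγ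
  -- a power of two above all constants
  obtain ⟨q, hq⟩ := pow_unbounded_of_one_lt
    (C1 + 1 + (C2 + 1) + (((n + n : ℕ) : ℝ) * 2 ^ (n + n) + 2) + 2 / c1) (by norm_num : (1 : ℝ) < 2)
  have hc1' : 0 < 2 / c1 := by positivity
  have hn0 : (0 : ℝ) ≤ ((n + n : ℕ) : ℝ) * 2 ^ (n + n) + 2 := by positivity
  have hqa : C1 + 1 ≤ 2 ^ q := by linarith
  have hqb : (C2 + 1) + (((n + n : ℕ) : ℝ) * 2 ^ (n + n) + 2) ≤ 2 ^ q := by linarith
  have hqc : 2 / c1 ≤ 2 ^ q := by linarith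
  refine ⟨q, ?_⟩
  intro m S c δ Y lam w M p hD hρ0 hρ1 hδ0 hδ1 hlam hw0 hw hY hTp hBd k K hk hkY hK
  obtain ⟨Λ, hΛ1, hΛ2, hTyp⟩ := hTp
  have hD0 : 0 < S.D := by linarith
  have hδ1' : δ ≤ 1 := by linarith
  have hρD : S.ρ ≤ S.D := by linarith
  have hk0 : (0 : ℝ) < k := by linarith
  have hK0 : (0 : ℝ) ≤ K := Nat.cast_nonneg K
  have hinv : 1 ≤ δ⁻¹ ^ n := one_le_pow₀ ((one_le_inv₀ hδ0).2 hδ1')
  have hwn : w ≤ 1 := hw.trans (pow_le_one₀ hδ0.le hδ1')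
  have hE : δ⁻¹ ^ n * lam * w ≤ δ⁻¹ ^ n * lam := by
    have : 0 ≤ δ⁻¹ ^ n * lam := by positivity
    nlinarith
  have hkD : (k : ℝ) ≤ Y := by linarith
  have hj1 := hTyp 1 (by norm_num) k hk hkD
  rw [pow_one] at hj1
  have hcp : δ⁻¹ ^ n * δ ^ n = 1 := by
    rw [← mul_pow, inv_mul_cancel₀ hδ0.ne', one_pow]
  refine ⟨?_, ?_, ?_⟩
  · have h1 := hl1 m S hD0 hρ0 hρD k hk (by linarith)
    have h2 : |Λ * mdl S γ 1 k| - |jet S c 1 p k - Λ * mdl S γ 1 k| ≤ |jet S c 1 p k| := by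
      have := abs_sub_abs_le_abs_sub (Λ * mdl S γ 1 k) (jet S c 1 p k)
      rw [abs_sub_comm (Λ * mdl S γ 1 k)] at this
      linarith
    have h3 : δ ^ n * lam * (c1 / S.D) ≤ |Λ * mdl S γ 1 k| := by
      rw [abs_mul]
      exact mul_le_mul hΛ1 h1 (by positivity) (abs_nonneg _)
    have h4 : δ⁻¹ ^ n * lam * w / S.D ≤ δ ^ (n + q) * (lam / S.D) := by
      have : δ⁻¹ ^ n * w ≤ δ ^ (n + q) := by
        calc δ⁻¹ ^ n * w ≤ δ⁻¹ ^ n * δ ^ (2 * n + q) := by gcongr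
          _ = (δ⁻¹ ^ n * δ ^ n) * δ ^ (n + q) := by ring
          _ = δ ^ (n + q) := by rw [hcp, one_mul]
      calc δ⁻¹ ^ n * lam * w / S.D = (δ⁻¹ ^ n * w) * (lam / S.D) := by ring
        _ ≤ δ ^ (n + q) * (lam / S.D) := by gcongr
    have h5 : 2 * (δ ^ (n + q) * (lam / S.D)) ≤ δ ^ n * lam * (c1 / S.D) := by
      have hq2 : δ ^ q ≤ c1 / 2 := by
        have h6 : δ ^ q ≤ (1 / 2) ^ q := pow_le_pow_left₀ hδ0.le hδ1 q
        have h7 : ((1 : ℝ) / 2) ^ q = 1 / 2 ^ q := by rw [div_pow, one_pow]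
        rw [h7] at h6
        refine h6.trans ?_
        rw [div_le_div_iff₀ (by positivity) (by norm_num)]
        have := (div_le_iff₀ hc1).1 hqc
        linarith
      calc 2 * (δ ^ (n + q) * (lam / S.D)) = 2 * δ ^ q * (δ ^ n * lam / S.D) := by
            rw [pow_add]; ring
        _ ≤ 2 * (c1 / 2) * (δ ^ n * lam / S.D) := by gcongr
        _ = δ ^ n * lam * (c1 / S.D) := by ring
    linarith
  · have h1 := hb1 m S hD0 hρ0 hρD k hk (by linarith)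
    rw [pow_one] at h1
    have h2 : |jet S c 1 p k| ≤ |Λ * mdl S γ 1 k| + |jet S c 1 p k - Λ * mdl S γ 1 k| := by
      have := abs_add_le (Λ * mdl S γ 1 k) (jet S c 1 p k - Λ * mdl S γ 1 k)
      rwa [add_sub_cancel] at this
    have h3 : |Λ * mdl S γ 1 k| ≤ δ⁻¹ ^ n * lam * (C1 / S.D) := by
      rw [abs_mul]
      exact mul_le_mul hΛ2 h1 (abs_nonneg _) (by positivity)
    have h4 : δ⁻¹ ^ n * lam * w / S.D ≤ δ⁻¹ ^ n * lam / S.D := by gcongr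
    calc |jet S c 1 p k| ≤ δ⁻¹ ^ n * lam * (C1 / S.D) + δ⁻¹ ^ n * lam / S.D := by linarith
      _ = (C1 + 1) * (δ⁻¹ ^ n * (lam / S.D)) := by ring
      _ ≤ 2 ^ q * (δ⁻¹ ^ n * (lam / S.D)) := by gcongr
      _ = 2 ^ q * δ⁻¹ ^ n * (lam / S.D) := by ring
  · intro j hj
    have hjK : (j : ℝ) ≤ K := by exact_mod_cast hj.le
    have hj0 : (0 : ℝ) ≤ j := Nat.cast_nonneg j
    have hsup : ∀ y : ℝ, (k : ℝ) ≤ y → y ≤ k + j →
        |jet S c 2 p y| ≤ (C2 + 1) * (δ⁻¹ ^ n * lam / S.D ^ 2) := by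
      intro y hy hy'
      have hyY : y ≤ Y := by linarith
      have h1 := hTyp 2 le_rfl y (by linarith) hyY
      have h2 := hb2 m S hD0 hρ0 hρD y (by linarith) (by linarith)
      have h3 : |jet S c 2 p y| ≤ |Λ * mdl S γ 2 y| + |jet S c 2 p y - Λ * mdl S γ 2 y| := by
        have := abs_add_le (Λ * mdl S γ 2 y) (jet S c 2 p y - Λ * mdl S γ 2 y)
        rwa [add_sub_cancel] at this
      have h4 : |Λ * mdl S γ 2 y| ≤ δ⁻¹ ^ n * lam * (C2 / S.D ^ 2) := by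
        rw [abs_mul]
        exact mul_le_mul hΛ2 h2 (abs_nonneg _) (by positivity)
      have h5 : δ⁻¹ ^ n * lam * w / S.D ^ 2 ≤ δ⁻¹ ^ n * lam / S.D ^ 2 := by gcongr
      calc |jet S c 2 p y| ≤ δ⁻¹ ^ n * lam * (C2 / S.D ^ 2) + δ⁻¹ ^ n * lam / S.D ^ 2 := by
            linarith
        _ = (C2 + 1) * (δ⁻¹ ^ n * lam / S.D ^ 2) := by ring
    have ht := taylor2 (jet S c 0 p) (jet S c 1 p) (jet S c 2 p) k (k + j) _ (by linarith)
      (fun y hy _ => jet_hasDeriv S c hD0 hρ0 0 p y (by linarith))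
      (fun y hy _ => jet_hasDeriv S c hD0 hρ0 1 p y (by linarith)) hsup
    have he := ev_jet S c M (n + n) p hBd (k + j)
    have hfl1 := Int.floor_le (jet S c 0 p k)
    have hfl2 := Int.lt_floor_add_one (jet S c 0 p k)
    have hfl3 := Int.floor_le (jet S c 1 p k * j)
    have hfl4 := Int.lt_floor_add_one (jet S c 1 p k * j)
    have e1 : (k : ℝ) + j - k = j := by ring
    rw [e1] at ht
    have hbd : (C2 + 1) * (δ⁻¹ ^ n * lam / S.D ^ 2) * (j : ℝ) ^ 2 ≤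
        (C2 + 1) * (δ⁻¹ ^ n * (lam * (K / S.D) ^ 2)) := by
      calc (C2 + 1) * (δ⁻¹ ^ n * lam / S.D ^ 2) * (j : ℝ) ^ 2
          ≤ (C2 + 1) * (δ⁻¹ ^ n * lam / S.D ^ 2) * (K : ℝ) ^ 2 := by gcongr
        _ = (C2 + 1) * (δ⁻¹ ^ n * (lam * (K / S.D) ^ 2)) := by rw [div_pow]; ring
    have hfin : ((n + n : ℕ) : ℝ) * 2 ^ (n + n) + 2 +
        (C2 + 1) * (δ⁻¹ ^ n * (lam * (K / S.D) ^ 2)) ≤
        2 ^ q * δ⁻¹ ^ n * (1 + lam * (K / S.D) ^ 2) := by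
      have a1 : ((n + n : ℕ) : ℝ) * 2 ^ (n + n) + 2 ≤
          (((n + n : ℕ) : ℝ) * 2 ^ (n + n) + 2) * (δ⁻¹ ^ n * (1 + lam * (K / S.D) ^ 2)) := by
        have : 1 ≤ δ⁻¹ ^ n * (1 + lam * (K / S.D) ^ 2) := by
          have h0 : 0 ≤ lam * ((K : ℝ) / S.D) ^ 2 := by positivity
          nlinarith
        nlinarith
      have a2 : (C2 + 1) * (δ⁻¹ ^ n * (lam * (K / S.D) ^ 2)) ≤
          (C2 + 1) * (δ⁻¹ ^ n * (1 + lam * (K / S.D) ^ 2)) := by
        gcongr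
        linarith
      calc _ ≤ ((C2 + 1) + (((n + n : ℕ) : ℝ) * 2 ^ (n + n) + 2)) *
            (δ⁻¹ ^ n * (1 + lam * (K / S.D) ^ 2)) := by
            rw [add_mul]; linarith
        _ ≤ 2 ^ q * (δ⁻¹ ^ n * (1 + lam * (K / S.D) ^ 2)) := by gcongr
        _ = _ := by ring
    push_cast at he ⊢
    rw [abs_le] at he ht ⊢
    constructor <;> push_cast at * <;> nlinarith [he.1, he.2, ht.1, ht.2]

/-- translation of the form by the head of the list -/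
theorem lform_translate {m N : ℕ} [NeZero N] (S : Sys m) (c : Fin m → ℝ) (fs : ZMod N → ℂ)
    (g0 : Phi m) (t : List ((ZMod N → ℂ) × Phi m)) :
    lform S c 1 ((fs, g0) :: t) = 𝔼 k ∈ S.I, 𝔼 x : ZMod N, fs x *
      ∏ j : Fin t.length, (t[j.1]).1 (x + ((ev (S.a c) ((t[j.1]).2 - g0) k : ℤ) : ZMod N)) := by
  unfold lform
  refine Finset.expect_congr rfl fun k _ => ?_
  rw [← expect_shift _ (((-(ev (S.a c) g0 k) : ℤ)) : ZMod N)]
  refine Finset.expect_congr rfl fun x _ => ?_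
  rw [List.map_cons, List.prod_cons, Pi.one_apply, one_mul]
  congr 1
  · congr 1
    push_cast
    ring
  · rw [← Fin.prod_univ_fun_getElem t (fun fp => fp.1 (x + ((-(ev (S.a c) g0 k) : ℤ) : ZMod N)
      + (ev (S.a c) fp.2 k : ZMod N)))]
    refine Finset.prod_congr rfl fun j _ => ?_
    congr 1
    rw [ev_sub]
    push_cast
    ring

end SW27

open SW27 LF in
/-- NX-27: the linear sweep. -/
theorem sweep (γ : ℝ) (hγ : γ ≠ 0) (n : ℕ) : ∃ n' : ℕ, ∀ (m : ℕ) (S : Sys m) (c : Fin m → ℝ)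
    (N : ℕ) [NeZero N] (δ Y lam w X : ℝ) (M R K : ℕ), Env S N δ M R w n' → 0 < lam →
    5 / 2 * S.D ≤ Y → Y ≤ 3 * S.D →
    ∀ (fs : ZMod N → ℂ) (g0 : Phi m) (t : List ((ZMod N → ℂ) × Phi m)),
      Adm (δ⁻¹ ^ n) X fs → (∀ fp ∈ t, fp.1 = fs ∨ fp.1 = fun x => conj (fs x)) →
      Clu S c δ M n 2 Y γ lam w g0 (t.map Prod.snd) → n * (M : ℝ) ≤ S.D / 4 →
      δ ^ n ≤ ‖lform S c 1 ((fs, g0) :: t)‖ →
      δ⁻¹ ^ n' ≤ K → (K : ℝ) ≤ δ ^ n' * S.T → lam * (K / S.D) ^ 2 ≤ δ ^ n' * X →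
      lam / S.D ≤ δ ^ n' * X → 1 ≤ δ ^ n' * X → X ≤ N → X ≤ δ ^ n' * (lam * (K / S.D)) →
      ∀ X1 : ℕ, 1 ≤ X1 → (X1 : ℝ) ≤ δ ^ n' * (lam * (K / S.D)) →
        δ ^ n' ≤ Box t.length X1 fs := by
  classical
  obtain ⟨q, hq⟩ := one_diff γ hγ n
  set Lf : ℕ → ℕ := fun r => if hr : 1 ≤ r then Classical.choose (lin_forms r (n + 1) hr) else 0
    with hLf
  set Lmax : ℕ := ∑ r ∈ range (n + 1), Lf r with hLmax
  refine ⟨Lmax + 4 * n + 2 * q + 8, ?_⟩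
  intro m S c N _ δ Y lam w X M R K hEnv hlam hY1 hY2 fs g0 t hfs ht hClu hnM hform hK1 hK2 hlK
    hlX h1X hXN hXK X1 hX1 hX1b
  set n' : ℕ := Lmax + 4 * n + 2 * q + 8 with hn'
  have hδ0 := hEnv.δ0
  have hδ1 := hEnv.δ1
  have hδ1' : δ ≤ 1 := by linarith
  have hD1 := hEnv.D1
  have hD0 : 0 < S.D := by linarith
  have hw0 : 0 ≤ w := (by positivity : (0 : ℝ) ≤ (M : ℝ) / S.D).trans hEnv.MD
  have hδn : ∀ a b : ℕ, a ≤ b → δ ^ b ≤ δ ^ a := fun a b hab =>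
    pow_le_pow_of_le_one hδ0.le hδ1' hab
  have hinv1 : 1 ≤ δ⁻¹ := (one_le_inv₀ hδ0).2 hδ1'
  have hX0 : 0 < X := by
    have : 0 < δ ^ n' * X := by linarith
    exact (mul_pos_iff_of_pos_left (by positivity : (0 : ℝ) < δ ^ n')).1 this
  have hr1 : 1 ≤ t.length := by
    have := hClu.ne
    rw [ne_eq, List.map_eq_nil_iff] at this
    exact List.length_pos_iff.2 this
  have hrn : t.length ≤ n := by
    have := hClu.le
    rwa [List.length_map] at this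
  have hLr : Lf t.length ≤ Lmax :=
    Finset.single_le_sum (f := Lf) (fun _ _ => Nat.zero_le _)
      (Finset.mem_range.2 (Nat.lt_succ_of_le hrn))
  have hLspec := Classical.choose_spec (lin_forms t.length (n + 1) hr1)
  have hLe : Classical.choose (lin_forms t.length (n + 1) hr1) = Lf t.length := by
    rw [hLf]
    simp only [dif_pos hr1]
  rw [hLe] at hLspec
  set L := Lf t.length with hL
  -- the functions and the differences
  set g : Fin t.length → ZMod N → ℂ := fun j => (t[j.1]).1 with hg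
  set p : Fin t.length → Phi m := fun j => (t[j.1]).2 - g0 with hp
  have hgA : ∀ j, Adm (δ⁻¹ ^ n) X (g j) := by
    intro j
    rcases ht _ (List.getElem_mem j.2) with h | h
    · rw [hg]; simp only [h]; exact hfs
    · rw [hg]; simp only [h]; exact hfs.cnj
  have hmem : ∀ j : Fin t.length, (t[j.1]).2 ∈ t.map Prod.snd := fun j =>
    List.mem_map.2 ⟨_, List.getElem_mem j.2, rfl⟩
  have hTp : ∀ j, Tp S c δ n 2 Y γ lam w (p j) := fun j => hClu.g _ (hmem j)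
  have hBd : ∀ j, Bd M (n + n) (p j) := fun j => (hClu.bt _ (hmem j)).sub hClu.b0
  -- the sequence
  set G : ℕ → ℂ := fun k => 𝔼 x : ZMod N, fs x *
      ∏ j, g j (x + ((ev (S.a c) (p j) k : ℤ) : ZMod N)) with hG
  have hG1 : ∀ k, ‖G k‖ ≤ 1 := by
    intro k
    refine norm_expect_le_of5 _ _ zero_le_one fun x _ => ?_
    rw [norm_mul, norm_prod]
    have h1 : ∏ j, ‖g j (x + ((ev (S.a c) (p j) k : ℤ) : ZMod N))‖ ≤ 1 :=
      Finset.prod_le_one (fun _ _ => norm_nonneg _) fun j _ => (hgA j).bdd _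
    calc ‖fs x‖ * ∏ j, ‖g j (x + ((ev (S.a c) (p j) k : ℤ) : ZMod N))‖ ≤ 1 * 1 :=
          mul_le_mul (hfs.bdd x) h1 (Finset.prod_nonneg fun _ _ => norm_nonneg _) zero_le_one
      _ = 1 := one_mul 1
  have hf1 : δ ^ n ≤ ‖𝔼 k ∈ range S.T, G (S.u + k)‖ := by
    rw [lform_translate] at hform
    rw [← expect_Ico]
    exact hform
  -- sizes of `K` and `T`
  have hKpos : (1 : ℝ) ≤ K := (one_le_pow₀ hinv1).trans hK1
  have hK1' : 1 ≤ K := by exact_mod_cast hKpos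
  have hTpos : (0 : ℝ) < S.T := by
    have h0 : (0 : ℝ) < δ ^ n' * S.T := by linarith
    exact (mul_pos_iff_of_pos_left (by positivity : (0 : ℝ) < δ ^ n')).1 h0
  have hTpos' : 0 < S.T := by exact_mod_cast hTpos
  -- averaging over short intervals
  have h1 := avg_avg (range K) ⟨0, Finset.mem_range.2 hK1'⟩ (fun l => l) (K : ℝ)
    (fun l hl => by exact_mod_cast (Finset.mem_range.1 hl).le) (fun k => G (S.u + k))
    (fun k => hG1 _) S.T hTpos'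
  have hKT : 2 * (K : ℝ) / S.T ≤ δ ^ n / 4 := by
    have h2 : (8 : ℝ) * δ ^ n' ≤ δ ^ n := absorb hδ0 hδ1 8 3 n n' (by norm_num) (by omega)
    rw [div_le_iff₀ hTpos]
    nlinarith
  have h2 : 3 / 4 * δ ^ n ≤ ‖𝔼 k ∈ range S.T, 𝔼 l ∈ range K, G (S.u + (k + l))‖ := by
    have h3 := norm_sub_norm_le (𝔼 k ∈ range S.T, G (S.u + k))
      (𝔼 k ∈ range S.T, 𝔼 l ∈ range K, G (S.u + (k + l)))
    linarith
  obtain ⟨k, hk, h3⟩ := exists_of_le_norm_expect (range S.T) ⟨0, Finset.mem_range.2 hTpos'⟩ _ _ h2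
  set k0 := S.u + k with hk0
  have hkT : (k : ℝ) ≤ S.T := by exact_mod_cast (Finset.mem_range.1 hk).le
  have hk0D : S.D ≤ (k0 : ℝ) := by
    rw [hk0]
    push_cast
    have := hEnv.u1
    have h0 : (0 : ℝ) ≤ k := Nat.cast_nonneg k
    linarith
  have hk0Y : (k0 : ℝ) + K ≤ Y := by
    have h4 : δ ^ n' ≤ 1 / 2 := by
      calc δ ^ n' ≤ δ ^ 1 := hδn 1 n' (by omega)
        _ ≤ 1 / 2 := by rw [pow_one]; exact hδ1
    have h5 : (K : ℝ) ≤ 1 / 2 * S.T := hK2.trans (by gcongr)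
    have h6 : (S.T : ℝ) ≤ S.D := by
      have := hEnv.u1
      have := hEnv.u2
      linarith
    rw [hk0]
    push_cast
    have := hEnv.u2
    linarith
  have hwq : w ≤ δ ^ (2 * n + q) := hEnv.w1.trans (hδn _ _ (by omega))
  have hdat := fun j => hq m S c δ Y lam w M (p j) hD1 hEnv.ρ0 hEnv.ρ1 hδ0 hδ1 hlam hw0 hwq hY2
    (hTp j) (hBd j) k0 K hk0D hk0Y hK1'
  set α : Fin t.length → ℝ := fun j => jet S c 1 (p j) k0 with hα
  set bt : Fin t.length → ℤ := fun j => ⌊jet S c 0 (p j) k0⌋ with hbt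
  -- replace the sequences by linear ones
  set E : ℝ := 2 ^ q * δ⁻¹ ^ n * (1 + lam * (K / S.D) ^ 2) with hE
  have hrep : ∀ l ∈ range K, ‖G (S.u + (k + l)) - 𝔼 x : ZMod N, fs x *
      ∏ j, g j (x + ((bt j + ⌊α j * l⌋ : ℤ) : ZMod N))‖ ≤
        (t.length * E) * (δ⁻¹ ^ n * (1 / X + 1 / N)) := by
    intro l hl
    have h4 := expect_prod_diff hX0 fs hfs.bdd g hgA
      (fun j => ev (S.a c) (p j) (k0 + l)) (fun j => bt j + ⌊α j * l⌋) (fun _ => E)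
      (fun j => (hdat j).2.2 l (Finset.mem_range.1 hl))
    rw [Finset.sum_const, Finset.card_univ, Fintype.card_fin, nsmul_eq_mul] at h4
    have e1 : G (S.u + (k + l)) = 𝔼 x : ZMod N, fs x *
      ∏ j, g j (x + ((ev (S.a c) (p j) (k0 + l) : ℤ) : ZMod N)) := by
      rw [hG, hk0]
      simp only [add_assoc]
    rw [e1]
    exact h4
  have herr : (t.length * E) * (δ⁻¹ ^ n * (1 / X + 1 / N)) ≤ δ ^ n / 4 := by
    have hcp : δ⁻¹ ^ (2 * n) * δ ^ (2 * n) = 1 := by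
      rw [← mul_pow, inv_mul_cancel₀ hδ0.ne', one_pow]
    have hE' : E ≤ 2 ^ q * δ⁻¹ ^ n * (2 * (δ ^ n' * X)) := by
      rw [hE]
      gcongr
      linarith
    have hN : (1 : ℝ) / N ≤ 1 / X := one_div_le_one_div_of_le hX0 hXN
    have hr' : (t.length : ℝ) ≤ 2 ^ n := by
      calc (t.length : ℝ) ≤ n := by exact_mod_cast hrn
        _ ≤ 2 ^ n := by exact_mod_cast Nat.lt_two_pow_self.le
    have hEnn : 0 ≤ E := by rw [hE]; positivity
    have hNnn : (0 : ℝ) ≤ 1 / N := by positivity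
    calc (t.length * E) * (δ⁻¹ ^ n * (1 / X + 1 / N))
        ≤ (2 ^ n * (2 ^ q * δ⁻¹ ^ n * (2 * (δ ^ n' * X)))) * (δ⁻¹ ^ n * (1 / X + 1 / X)) := by
          gcongr
      _ = 2 ^ (n + q + 2) * (δ⁻¹ ^ (2 * n) * δ ^ n') := by
          field_simp
          ring
      _ = 2 ^ (n + q + 2) * δ ^ (n' - 2 * n) := by
          congr 1
          have : δ ^ n' = δ ^ (2 * n) * δ ^ (n' - 2 * n) := by
            rw [← pow_add]
            congr 1
            omega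
          rw [this, ← mul_assoc, hcp, one_mul]
      _ ≤ δ ^ (n + 2) := absorb hδ0 hδ1 _ (n + q + 2) (n + 2) (n' - 2 * n) le_rfl (by omega)
      _ = δ ^ n * δ ^ 2 := by ring
      _ ≤ δ ^ n * (1 / 4) := by
          gcongr
          nlinarith
      _ = δ ^ n / 4 := by ring
  have h5 : δ ^ (n + 1) ≤ ‖𝔼 l ∈ range K, 𝔼 x : ZMod N, fs x *
      ∏ j, g j (x + ((bt j + ⌊α j * l⌋ : ℤ) : ZMod N))‖ := by
    have h6 : ‖(𝔼 l ∈ range K, G (S.u + (k + l))) - 𝔼 l ∈ range K, 𝔼 x : ZMod N, fs x *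
      ∏ j, g j (x + ((bt j + ⌊α j * l⌋ : ℤ) : ZMod N))‖ ≤ δ ^ n / 4 := by
      rw [← Finset.expect_sub_distrib]
      refine norm_expect_le_of5 _ _ (by positivity) fun l hl => ?_
      exact (hrep l hl).trans herr
    have h7 := norm_sub_norm_le (𝔼 l ∈ range K, G (S.u + (k + l)))
      (𝔼 l ∈ range K, 𝔼 x : ZMod N, fs x * ∏ j, g j (x + ((bt j + ⌊α j * l⌋ : ℤ) : ZMod N)))
    have h8 : δ ^ (n + 1) ≤ δ ^ n / 2 := by
      rw [pow_succ]
      have : 0 < δ ^ n := by positivity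
      nlinarith
    linarith
  -- the linear forms
  have hconcl := hLspec N δ X (δ ^ (n + q) * (lam / S.D)) K α fs
    (fun j x => g j (x + (bt j : ZMod N))) hδ0 hδ1
    (hfs.mono (pow_le_pow_right₀ hinv1 (Nat.le_succ n)) hX0 le_rfl)
    (fun j => ((hgA j).shift _).mono (pow_le_pow_right₀ hinv1 (Nat.le_succ n)) hX0 le_rfl)
    (by positivity) (fun j => (hdat j).1) ?_ ?_ hXN ?_ ?_ ?_ X1 hX1 ?_
  · exact (hδn _ _ (by omega)).trans hconcl
  · intro j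
    have hcp : δ⁻¹ ^ n * δ ^ n = 1 := by
      rw [← mul_pow, inv_mul_cancel₀ hδ0.ne', one_pow]
    calc |α j| ≤ 2 ^ q * δ⁻¹ ^ n * (lam / S.D) := (hdat j).2.1
      _ ≤ 2 ^ q * δ⁻¹ ^ n * (δ ^ n' * X) := by gcongr
      _ = (2 ^ q * δ ^ (n' - n)) * X := by
          have : δ ^ n' = δ ^ n * δ ^ (n' - n) := by
            rw [← pow_add]
            congr 1
            omega
          rw [this]
          calc _ = 2 ^ q * (δ⁻¹ ^ n * δ ^ n) * δ ^ (n' - n) * X := by ring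
            _ = _ := by rw [hcp]; ring
      _ ≤ δ ^ L * X := by
          gcongr
          exact absorb hδ0 hδ1 _ q L (n' - n) le_rfl (by omega)
  · calc (1 : ℝ) ≤ δ ^ n' * X := h1X
      _ ≤ δ ^ L * X := mul_le_mul_of_nonneg_right (hδn _ _ (by omega)) hX0.le
  · calc δ⁻¹ ^ L ≤ δ⁻¹ ^ n' := pow_le_pow_right₀ hinv1 (by omega)
      _ ≤ K := hK1
  · calc X ≤ δ ^ n' * (lam * (K / S.D)) := hXK
      _ ≤ δ ^ (L + (n + q)) * (lam * (K / S.D)) :=
          mul_le_mul_of_nonneg_right (hδn _ _ (by omega)) (by positivity)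
      _ = δ ^ L * (δ ^ (n + q) * (lam / S.D)) * K := by rw [pow_add]; ring
  · refine h5.trans (le_of_eq ?_)
    congr 1
    refine Finset.expect_congr rfl fun l _ => Finset.expect_congr rfl fun x _ => ?_
    congr 1
    refine Finset.prod_congr rfl fun j _ => ?_
    congr 1
    push_cast
    ring
  · calc (X1 : ℝ) ≤ δ ^ n' * (lam * (K / S.D)) := hX1b
      _ ≤ δ ^ (L + (n + q)) * (lam * (K / S.D)) :=
          mul_le_mul_of_nonneg_right (hδn _ _ (by omega)) (by positivity)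
      _ = δ ^ L * (δ ^ (n + q) * (lam / S.D)) * K := by rw [pow_add]; ring

end

end Pool.Agent.Helper57.NX
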